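import Pool.Agent.X284.HW.W
import Pool.Agent.X244.AZ.P1

set_option autoImplicit false

/-!
The completed L-function of a newform of arbitrary weight and nebentypus.
-/

namespace Pool.Agent.X284.HW

open UpperHalfPlane hiding I
open MatrixGroups CongruenceSubgroup Filter Topology Complex
open Pool.Agent.Y671.GL
open Pool.Agent.W355.UN (Eu2 Pk pk_raw RawL acond cser nf_raw)
open Pool.Agent.W355.LJ (IsNF)
open Pool.Agent.X244.AZ (CB)
open scoped ComplexConjugate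

variable {N : ℕ} [NeZero N] {k : ℕ} {ψ : DirichletCharacter ℂ N}
  {f : CuspForm (Gamma1 N : Subgroup (GL (Fin 2) ℝ)) (k : ℤ)} {η : ℂ}

/-- the Gamma parameters -/
noncomputable def gl (k : ℕ) : List ℂ :=
  [(((((k : ℝ) - 1) / 2) : ℝ) : ℂ), (((((k : ℝ) + 1) / 2) : ℝ) : ℂ)]

theorem exists_Z1 (hk : 1 ≤ k) (hf : W388.IsNewfC N (k : ℤ) ψ f η) (hb : Sat N k ψ f) :
    ∃ Z : ℂ → ℂ, W388.FE2 k N 1 Z ∧ IsL (W388.lamC f) Z := by
  have hF := frm_al hk hf hb
  have hk' : (1 : ℤ) ≤ (k : ℤ) := by exact_mod_cast hk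
  obtain ⟨-, -, -, hS⟩ := Pool.Agent.Y771.GL.mf k N _ _ hF
  obtain ⟨Z, hZ, hZs⟩ := W388.exists_twistC Pool.Agent.W440.TC.t_twistC Pool.Agent.W108.TW.t_mellin
    hk' hf
    (by
      intro q _ χ s hs
      refine ((hS s.re hs).1).of_nonneg_of_le (fun n => norm_nonneg _) fun n => ?_
      rcases Nat.eq_zero_or_pos n with rfl | hn
      · rw [W388.lamC_zero]
        simp
      · rw [norm_mul, norm_mul, Complex.norm_natCast_cpow_of_pos hn, Complex.neg_re]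
        have h1 : ‖χ (n : ZMod q)‖ ≤ 1 := χ.norm_le_one _
        have h3 : 0 ≤ ‖W388.lamC f n‖ * (n : ℝ) ^ (-s.re) := by positivity
        nlinarith) 1 1
    DirichletCharacter.isPrimitive_one_level_one (Nat.coprime_one_left N)
  refine ⟨Z, by simpa using hZ, hZ.diff, ?_⟩
  intro s hs
  rw [hZs s hs]
  refine tsum_congr fun n => ?_
  have h1 : (1 : DirichletCharacter ℂ 1) ((n : ℕ) : ZMod 1) = 1 := by
    apply MulChar.one_apply
    exact isUnit_of_subsingleton _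
  rw [h1, one_mul]

theorem raw1 (hk : 1 ≤ k) (hf : W388.IsNewfC N (k : ℤ) ψ f η) (hb : Sat N k ψ f) :
    ∃ (c : ℕ → ℂ) (X : ℂ → ℂ), RawL (gl k) 0 N (W388.lamC f) c X := by
  have hE := eu2_al hf hb
  have hw : ‖η / Complex.I ^ k‖ = 1 := by
    rw [norm_div, norm_pow, Complex.norm_I, hf.sign, one_pow, div_one]
  have hnf : IsNF N k f (η / Complex.I ^ k) := by
    refine ⟨hf.one, hw, fun τ τ' τ'' a b => ?_⟩
    have h1 := hf.fricke τ τ' τ'' a b
    rw [h1, zpow_natCast, div_pow]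
    have hI := Complex.I_ne_zero
    field_simp
  have e1 : (fun n => (qExpansion 1 f).coeff n * ((((n : ℝ) ^ (-(((k : ℝ) - 1) / 2)) : ℝ)) : ℂ)) =
      W388.lamC f := by
    funext n
    rcases Nat.eq_zero_or_pos n with rfl | hn
    · rw [W388.coeff_zeroC, W388.lamC_zero, zero_mul]
    · unfold W388.lamC
      have hn0 : (0 : ℝ) < n := by exact_mod_cast hn
      rw [Real.rpow_neg hn0.le, Int.cast_natCast, Complex.ofReal_inv]
      exact (div_eq_mul_inv _ _).symm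
  have hE' : Eu2 fun n => (qExpansion 1 f).coeff n *
      ((((n : ℝ) ^ (-(((k : ℝ) - 1) / 2)) : ℝ)) : ℂ) := by
    rw [e1]
    exact hE
  obtain ⟨c, X, h⟩ := nf_raw f hk hnf hE'
  rw [e1] at h
  exact ⟨c, X, h⟩

/-- the completed series with the Gamma factor of the theory -/
theorem cser_eq {F : ℂ → ℂ} (hF : Frm k N (ps ψ) (W388.lamC f)) (hL : IsL (W388.lamC f) F) {s : ℂ}
    (hs : 1 < s.re) :
    cser 0 N (gl k) (W388.lamC f) s =
      ((N : ℝ) : ℂ) ^ (s / 2) * Complex.Gammaℂ (s + ((((k : ℝ) - 1) / 2 : ℝ) : ℂ)) * F s := by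
  have h1 := Complex.Gammaℝ_mul_Gammaℝ_add_one (s + ((((k : ℝ) - 1) / 2 : ℝ) : ℂ))
  unfold cser gl
  rw [pow_zero, one_mul, ser_eq hF hL hs]
  simp only [List.map_cons, List.map_nil, List.prod_cons, List.prod_nil, mul_one]
  rw [← h1]
  have e2 : s + ((((k : ℝ) - 1) / 2 : ℝ) : ℂ) + 1 = s + ((((k : ℝ) + 1) / 2 : ℝ) : ℂ) := by
    push_cast
    ring
  rw [e2]

theorem gam_eq {N : ℕ} (hN : 0 < N) (a : ℝ) (s : ℂ) :
    ((N : ℝ) : ℂ) ^ (s / 2) * Complex.Gammaℂ (s + (a : ℂ)) =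
      2 * (2 * Real.pi : ℂ) ^ (-(a : ℂ)) * ((Real.sqrt N / (2 * Real.pi) : ℝ) : ℂ) ^ s *
        Complex.Gamma (s + a) := by
  have hN0 : (0 : ℝ) < N := by exact_mod_cast hN
  have hpi := Real.pi_pos
  rw [Complex.Gammaℂ_def]
  have h2p : (2 * Real.pi : ℂ) ≠ 0 := by
    have : (Real.pi : ℂ) ≠ 0 := by exact_mod_cast hpi.ne'
    exact mul_ne_zero two_ne_zero this
  have e1 : ((Real.sqrt N / (2 * Real.pi) : ℝ) : ℂ) ^ s = ((N : ℝ) : ℂ) ^ (s / 2) * (2 * Real.pi : ℂ) ^ (-s) := by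
    rw [div_eq_mul_inv, Complex.ofReal_mul,
      Complex.mul_cpow_ofReal_nonneg (Real.sqrt_nonneg _) (by positivity)]
    congr 1
    · have h2 : ((N : ℝ) : ℂ) = ((Real.sqrt N : ℝ) : ℂ) * ((Real.sqrt N : ℝ) : ℂ) := by
        rw [← Complex.ofReal_mul, Real.mul_self_sqrt hN0.le]
      have h3 : ((Real.sqrt N : ℝ) : ℂ) ≠ 0 := by exact_mod_cast (Real.sqrt_pos.2 hN0).ne'
      rw [h2, Complex.mul_cpow_ofReal_nonneg (Real.sqrt_nonneg _) (Real.sqrt_nonneg _),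
        ← Complex.cpow_add _ _ h3]
      congr 1
      ring
    · have h2 : (2 * Real.pi : ℂ) = ((2 * Real.pi : ℝ) : ℂ) := by push_cast; rfl
      rw [h2, Complex.cpow_neg]
      refine eq_inv_of_mul_eq_one_left ?_
      rw [← Complex.mul_cpow_ofReal_nonneg (by positivity) (by positivity), ← Complex.ofReal_mul,
        inv_mul_cancel₀ (by positivity), Complex.ofReal_one, Complex.one_cpow]
  rw [e1, neg_add, Complex.cpow_add _ _ h2p]
  ring

/-- bounds for the conductor -/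
theorem cb_gl {N : ℕ} (hN : 1 ≤ N) {k : ℕ} (hk : 1 ≤ k) :
    CB (acond N (gl k)) (Real.log (((k : ℝ) + 3) ^ 2 * N)) 2 := by
  have hN1 : (1 : ℝ) ≤ N := by exact_mod_cast hN
  have hk1 : (1 : ℝ) ≤ k := by exact_mod_cast hk
  obtain ⟨a, ha⟩ : ∃ a : ℝ, a = ((k : ℝ) - 1) / 2 := ⟨_, rfl⟩
  obtain ⟨b, hb⟩ : ∃ b : ℝ, b = ((k : ℝ) + 1) / 2 := ⟨_, rfl⟩
  have ha0 : 0 ≤ a := by rw [ha]; linarith
  have hb0 : 0 ≤ b := by rw [hb]; linarith
  have e : ∀ y : ℝ, acond N (gl k) y =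
      N * ((1 + ‖(y : ℂ) * I + (a : ℂ)‖) * (1 + ‖(y : ℂ) * I + (b : ℂ)‖)) := by
    intro y
    unfold acond gl
    simp only [List.map_cons, List.map_nil, List.prod_cons, List.prod_nil, mul_one]
    rw [ha, hb]
  have hup : ∀ y c : ℝ, 0 ≤ c → c ≤ ((k : ℝ) + 1) / 2 →
      1 + ‖(y : ℂ) * I + (c : ℂ)‖ ≤ ((k : ℝ) + 3) * (1 + |y|) := by
    intro y c hc hc2
    have h1 : ‖(y : ℂ) * I + (c : ℂ)‖ ≤ ‖(y : ℂ) * I‖ + ‖(c : ℂ)‖ := norm_add_le _ _
    have h2 : ‖(y : ℂ) * I‖ = |y| := by simp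
    have h3 : ‖(c : ℂ)‖ = c := by rw [Complex.norm_real, Real.norm_of_nonneg hc]
    rw [h2, h3] at h1
    have := abs_nonneg y
    nlinarith
  have hlo : ∀ y c : ℝ, |y| ≤ ‖(y : ℂ) * I + (c : ℂ)‖ := by
    intro y c
    have h1 := Complex.abs_im_le_norm ((y : ℂ) * I + (c : ℂ))
    simpa using h1
  have hlo1 : ∀ y c : ℝ, 1 ≤ 1 + ‖(y : ℂ) * I + (c : ℂ)‖ := fun y c => by
    linarith [norm_nonneg ((y : ℂ) * I + (c : ℂ))]
  refine ⟨by norm_num, fun y => ?_, fun y => ?_, fun y hy => ?_⟩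
  · rw [e]
    exact one_le_mul_of_one_le_of_one_le hN1
      (one_le_mul_of_one_le_of_one_le (hlo1 y a) (hlo1 y b))
  · have hy := abs_nonneg y
    have h2 : acond N (gl k) y ≤ (((k : ℝ) + 3) ^ 2 * N) * (1 + |y|) ^ 2 := by
      rw [e]
      have h3 := hup y a ha0 (by rw [ha]; linarith)
      have h4 := hup y b hb0 (by rw [hb])
      calc (N : ℝ) * ((1 + ‖(y : ℂ) * I + (a : ℂ)‖) * (1 + ‖(y : ℂ) * I + (b : ℂ)‖)) ≤
            N * ((((k : ℝ) + 3) * (1 + |y|)) * (((k : ℝ) + 3) * (1 + |y|))) := by gcongr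
        _ = _ := by ring
    have h3 : 0 < acond N (gl k) y := by
      rw [e]
      positivity
    refine (Real.log_le_log h3 h2).trans ?_
    rw [Real.log_mul (by positivity) (by positivity), Real.log_pow]
    push_cast
    exact le_rfl
  · rw [e]
    have h1 : y ≤ 1 + ‖(y : ℂ) * I + (a : ℂ)‖ := by
      linarith [le_abs_self y, hlo y a]
    have h3 : 1 ≤ (N : ℝ) * (1 + ‖(y : ℂ) * I + (b : ℂ)‖) :=
      one_le_mul_of_one_le_of_one_le hN1 (hlo1 y b)
    calc y ≤ (1 + ‖(y : ℂ) * I + (a : ℂ)‖) * 1 := by linarith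
      _ ≤ (1 + ‖(y : ℂ) * I + (a : ℂ)‖) * ((N : ℝ) * (1 + ‖(y : ℂ) * I + (b : ℂ)‖)) := by gcongr
      _ = _ := by ring

/-- **the completed L-function** -/
theorem ldata (hk : 1 ≤ k) (hf : W388.IsNewfC N (k : ℤ) ψ f η) (hb : Sat N k ψ f) :
    ∃ (c : ℝ) (u c0 : ℂ) (Λ Z : ℂ → ℂ), c0 ≠ 0 ∧
      Pk 2 N (acond N (gl k)) (cser 0 N (gl k) (W388.lamC f)) Λ ∧
      IsL (W388.lamC f) Z ∧ W388.FE2 k N 1 Z ∧ LData k c u (fun z => c0 * Λ (1 / 2 + z)) Z ∧
      (∀ s : ℂ, (0 < s.re ∨ s.im ≠ 0) → Λ s = ((N : ℝ) : ℂ) ^ (s / 2) *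
        Complex.Gammaℂ (s + ((((k : ℝ) - 1) / 2 : ℝ) : ℂ)) * Z s) := by
  obtain ⟨F, hFE, hF⟩ := exists_Z1 hk hf hb
  have hfrm := frm_al hk hf hb
  have hN0 : (0 : ℝ) < N := by exact_mod_cast Nat.pos_of_ne_zero (NeZero.ne N)
  have hNn : 0 < N := Nat.pos_of_ne_zero (NeZero.ne N)
  have hN1 : (1 : ℝ) ≤ N := by exact_mod_cast Nat.one_le_iff_ne_zero.2 (NeZero.ne N)
  have hk1 : (1 : ℝ) ≤ k := by exact_mod_cast hk
  have hsN : 0 < Real.sqrt N := Real.sqrt_pos.2 hN0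
  have hpi0 := Real.pi_pos
  obtain ⟨cc, X0, hraw⟩ := raw1 hk hf hb
  have hpk := pk_raw hraw
  have hpk' : Pk 2 N (acond N (gl k)) (cser 0 N (gl k) (W388.lamC f)) X0 := hpk
  have hd := hpk.diff
  obtain ⟨w', hw', hfe⟩ := hpk.fe
  obtain ⟨μ, L, ul, ec, σ0, hσ0⟩ := hpk
  obtain ⟨a, ha⟩ : ∃ a : ℝ, a = ((k : ℝ) - 1) / 2 := ⟨_, rfl⟩
  have ha0 : 0 ≤ a := by rw [ha]; linarith
  obtain ⟨g0, hg0⟩ : ∃ g0 : ℂ, g0 = 2 * (2 * Real.pi : ℂ) ^ (-(a : ℂ)) := ⟨_, rfl⟩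
  have h2p : (2 * Real.pi : ℂ) ≠ 0 := by
    have : (Real.pi : ℂ) ≠ 0 := by exact_mod_cast hpi0.ne'
    exact mul_ne_zero two_ne_zero this
  have hg00 : g0 ≠ 0 := by
    rw [hg0]
    refine mul_ne_zero two_ne_zero ?_
    rw [Complex.cpow_def_of_ne_zero h2p]
    exact Complex.exp_ne_zero _
  -- the constant
  obtain ⟨c0, hc0⟩ : ∃ c0 : ℂ, c0 ^ 2 = conj w' := IsAlgClosed.exists_pow_nat_eq _ (by norm_num)
  have hc0n : ‖c0‖ = 1 := by
    have h1 := congrArg norm hc0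
    rw [norm_pow, Complex.norm_conj, hw'] at h1
    nlinarith [norm_nonneg c0]
  have hc00 : c0 ≠ 0 := by
    intro h; rw [h, norm_zero] at hc0n; exact zero_ne_one hc0n
  have hc0w : c0 * w' = conj c0 := by
    apply mul_left_cancel₀ hc00
    have h1 : conj w' * w' = 1 := by
      rw [mul_comm, Complex.mul_conj, Complex.normSq_eq_norm_sq, hw']
      simp
    have h2 : c0 * conj c0 = 1 := by
      rw [Complex.mul_conj, Complex.normSq_eq_norm_sq, hc0n]
      simp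
    rw [h2, ← mul_assoc, ← sq, hc0, h1]
  obtain ⟨c, hc⟩ : ∃ c : ℝ, c = Real.sqrt N / (2 * Real.pi) := ⟨_, rfl⟩
  have hcp : 0 < c := by rw [hc]; positivity
  have hcc : (c : ℂ) ≠ 0 := by exact_mod_cast hcp.ne'
  have hgam : ∀ s : ℂ, ((N : ℝ) : ℂ) ^ (s / 2) * Complex.Gammaℂ (s + (a : ℂ)) =
      g0 * (c : ℂ) ^ s * Complex.Gamma (s + a) := by
    intro s
    rw [gam_eq hNn, hg0, hc]
  -- large real part
  have hbig : ∀ s : ℂ, max σ0 2 ≤ s.re → X0 s = g0 * (c : ℂ) ^ s * Complex.Gamma (s + a) * F s := by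
    intro s hs
    rw [hσ0 s ((le_max_left _ _).trans hs), cser_eq hfrm hF (by linarith [(le_max_right σ0 2).trans hs]),
      ← ha, hgam]
  -- the identity on the slit plane
  obtain ⟨U, hU⟩ : ∃ U : Set ℂ, U = {z : ℂ | 0 < z.re ∨ z.im ≠ 0} := ⟨_, rfl⟩
  have hUs : U = Complex.slitPlane := by
    rw [hU]
    ext z
    rw [Complex.mem_slitPlane_iff]
    rfl
  have hUo : IsOpen U := by
    rw [hUs]
    exact Complex.isOpen_slitPlane
  have hUc : IsPreconnected U := by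
    rw [hUs]
    exact (Complex.starConvex_one_slitPlane.isPathConnected Complex.one_mem_slitPlane).isConnected.isPreconnected
  have hG : ∀ z : ℂ, (0 < z.re ∨ z.im ≠ 0) →
      DifferentiableAt ℂ (fun s : ℂ => g0 * (c : ℂ) ^ s * Complex.Gamma (s + a)) z := by
    intro z hz
    refine DifferentiableAt.mul ?_ ?_
    · exact (DifferentiableAt.const_cpow differentiableAt_id (Or.inl hcc)).const_mul _
    · have h1 : DifferentiableAt ℂ Complex.Gamma (z + a) := by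
        refine Complex.differentiableAt_Gamma _ ?_
        intro m hm
        rcases hz with hz | hz
        · have := congrArg Complex.re hm
          simp at this
          have hm0 : (0 : ℝ) ≤ m := Nat.cast_nonneg m
          linarith
        · have := congrArg Complex.im hm
          simp at this
          exact hz this
      exact h1.comp z (differentiableAt_id.add_const _)
  have hA2 : DifferentiableOn ℂ (fun z : ℂ => g0 * (c : ℂ) ^ z * Complex.Gamma (z + a) * F z) U := by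
    intro z hz
    rw [hU] at hz
    exact ((hG z hz).mul (hF.diff z)).differentiableWithinAt
  obtain ⟨z0, hz0⟩ : ∃ z0 : ℂ, z0 = ((max σ0 2 + 1 : ℝ) : ℂ) := ⟨_, rfl⟩
  have hz0re : z0.re = max σ0 2 + 1 := by rw [hz0, Complex.ofReal_re]
  have hz0U : z0 ∈ U := by
    rw [hU]
    left
    rw [hz0re]
    linarith [le_max_right σ0 2]
  have hev : X0 =ᶠ[𝓝 z0] fun z : ℂ => g0 * (c : ℂ) ^ z * Complex.Gamma (z + a) * F z := by
    have h3 : ∀ᶠ z : ℂ in 𝓝 z0, max σ0 2 < z.re :=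
      (Complex.continuous_re.tendsto _).eventually (lt_mem_nhds (by rw [hz0re]; linarith))
    filter_upwards [h3] with z hz
    exact hbig z hz.le
  have hEq := (hd.differentiableOn.analyticOnNhd hUo).eqOn_of_preconnected_of_eventuallyEq
    (hA2.analyticOnNhd hUo) hUc hz0U hev
  have heq : ∀ z : ℂ, (0 < z.re ∨ z.im ≠ 0) → X0 z = g0 * (c : ℂ) ^ z * Complex.Gamma (z + a) * F z := by
    intro z hz
    exact hEq (by rw [hU]; exact hz)
  -- in terms of the theory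
  obtain ⟨X, hX⟩ : ∃ X : ℂ → ℂ, X = fun z => c0 * X0 (1 / 2 + z) := ⟨_, rfl⟩
  have hXd : Differentiable ℂ X := by
    rw [hX]
    exact (hd.comp (by fun_prop : Differentiable ℂ fun z : ℂ => 1 / 2 + z)).const_mul _
  obtain ⟨u, hu⟩ : ∃ u : ℂ, u = c0 * g0 * (c : ℂ) ^ (1 / 2 : ℂ) := ⟨_, rfl⟩
  have hcpw : ∀ z : ℂ, (c : ℂ) ^ z ≠ 0 := by
    intro z
    rw [Complex.cpow_def_of_ne_zero hcc]
    exact Complex.exp_ne_zero _
  have hu0 : u ≠ 0 := by rw [hu]; exact mul_ne_zero (mul_ne_zero hc00 hg00) (hcpw _)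
  have hak : (k : ℝ) / 2 = 1 / 2 + a := by rw [ha]; ring
  have heqX : ∀ z : ℂ, (1 / 2 < z.re ∨ z.im ≠ 0) → X z = u * Hg c ((k : ℝ) / 2) z * F (1 / 2 + z) := by
    intro z hz
    have e1 : X z = c0 * X0 (1 / 2 + z) := by rw [hX]
    rw [e1, heq _ (by
      rcases hz with h | h
      · left
        have : (1 / 2 + z : ℂ).re = 1 / 2 + z.re := by simp
        rw [this]; linarith
      · right
        have : (1 / 2 + z : ℂ).im = z.im := by simp
        rw [this]; exact h), Complex.cpow_add _ _ hcc, hu]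
    unfold Hg
    have e2 : z + (((k : ℝ) / 2 : ℝ) : ℂ) = 1 / 2 + z + a := by rw [hak]; push_cast; ring
    rw [e2]
    ring
  -- bounds
  obtain ⟨-, -, -, h4⟩ := Pool.Agent.Y771.GL.mf k N (ps ψ) (W388.lamC f) hfrm
  obtain ⟨B0, hB0⟩ : ∃ B0 : ℝ, B0 = ∑' n : ℕ, ‖W388.lamC f n‖ * (n : ℝ) ^ (-(3 / 2 : ℝ)) := ⟨_, rfl⟩
  have hFB : ∀ s : ℂ, 3 / 2 ≤ s.re → ‖F s‖ ≤ max 1 B0 := by
    intro s hs
    rw [ser_eq hfrm hF (by linarith)]
    refine le_trans ?_ (le_max_right _ _)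
    rw [hB0]
    exact (sum_of (h4 (3 / 2) (by norm_num)).1 hs).2
  refine ⟨c, u, c0, X0, F, hc00, hpk', hF, hFE, ?_, ?_⟩
  · have hXe : (fun z => c0 * X0 (1 / 2 + z)) = X := hX.symm
    rw [hXe]
    refine ⟨hcp, hu0, hXd, ?_, ?_, ?_, ?_⟩
    · -- symmetry
      intro z
      have e1 : X (-(conj z)) = c0 * X0 (1 - (1 / 2 + conj z)) := by
        rw [hX]
        show c0 * X0 (1 / 2 + -(conj z)) = _
        congr 2
        ring
      have e2 : conj (1 / 2 + conj z) = 1 / 2 + z := by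
        rw [map_add, Complex.conj_conj, map_div₀, map_one]
        have : conj (2 : ℂ) = 2 := Complex.conj_ofNat 2
        rw [this]
      rw [e1, hfe, e2, ← mul_assoc, hc0w, ← map_mul]
      rw [hX]
    · intro z hz
      refine heqX z ?_
      rcases hz with hz | hz
      · exact Or.inr hz.ne'
      · exact Or.inl hz
    · -- vertical strips
      intro a' b'
      obtain ⟨C1, hC1⟩ := hFE.vert (a' + 1 / 2) (b' + 1 / 2)
      have hK : IsCompact (Set.Icc a' b' ×ℂ Set.Icc (-1 : ℝ) 1) := isCompact_Icc.reProdIm isCompact_Icc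
      obtain ⟨C2, hC2⟩ := hK.exists_bound_of_continuousOn (f := X) hXd.continuous.continuousOn
      refine ⟨max (‖u‖ * ‖(c : ℂ) ^ (-(1 / 2) : ℂ)‖ * C1) C2, fun z hz1 hz2 => ?_⟩
      rcases le_or_gt 1 |z.im| with h1 | h1
      · refine le_trans ?_ (le_max_left _ _)
        have him : z.im ≠ 0 := by
          intro h0; rw [h0, abs_zero] at h1; linarith
        rw [heqX z (Or.inr him)]
        have h5 := hC1 (1 / 2 + z) (by simp; linarith) (by simp; linarith) (by simpa using h1)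
        have h6 : Hg c ((k : ℝ) / 2) z = (c : ℂ) ^ (-(1 / 2) : ℂ) * W388.GG k N 1 (1 / 2 + z) := by
          unfold Hg W388.GG
          rw [mul_one, ← hc, ← mul_assoc, ← Complex.cpow_add _ _ hcc]
          congr 1
          · congr 1; ring
          · congr 1
            push_cast
            ring
        rw [h6]
        calc ‖u * ((c : ℂ) ^ (-(1 / 2) : ℂ) * W388.GG k N 1 (1 / 2 + z)) * F (1 / 2 + z)‖
            = ‖u‖ * ‖(c : ℂ) ^ (-(1 / 2) : ℂ)‖ * ‖W388.GG k N 1 (1 / 2 + z) * F (1 / 2 + z)‖ := by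
              rw [norm_mul, norm_mul, norm_mul, norm_mul]; ring
          _ ≤ _ := by gcongr
      · refine le_trans (hC2 z ?_) (le_max_right _ _)
        rw [Complex.mem_reProdIm]
        have := abs_lt.1 h1
        exact ⟨⟨hz1, hz2⟩, ⟨this.1.le, this.2.le⟩⟩
    · -- growth
      obtain ⟨A, hA⟩ : ∃ A : ℝ, A = 2 + 2 * (max 1 B0 * N) * ((((k : ℤ) : ℝ) - 1) / 2 + 6) ^ 2 := ⟨_, rfl⟩
      refine ⟨A, fun s h1 h3 => ?_⟩
      have h5 := Pool.Agent.W820.TW.F_growth (k := (k : ℤ)) (N := N) (Q := 1) (B := max 1 B0)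
        (by exact_mod_cast hk) hN1 le_rfl
        (le_max_left _ _) hFE hFB (A := A) (le_of_eq hA.symm) s h1 h3
      rwa [one_mul] at h5
  · intro s hs
    rw [heq s hs, ← ha, hgam]

end Pool.Agent.X284.HW
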