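import Pool.Agent.X284.HW.S

set_option autoImplicit false

/-!
Finite families of newforms.
-/

namespace Pool.Agent.X284.HW

open UpperHalfPlane hiding I
open MatrixGroups CongruenceSubgroup Filter Topology Complex
open Pool.Agent.Y671.GL
open Pool.Agent.X244.AZ (PK pk_cons derivs flows)
open Pool.Agent.X284.HG (Good OffA BadA density_all growth_all)
open Pool.Agent.W169.HF (heat)
open scoped ComplexConjugate

variable {ι : Type} [Fintype ι] [Nonempty ι]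

theorem pk_fin {Λ Z : ι → ℂ → ℂ} (h : ∀ j, PK 1 (Λ j) (Z j)) :
    PK (Fintype.card ι) (fun s => ∏ j, Λ j s) (fun s => ∏ j, Z j s) := by
  classical
  have h1 := pk_cons Λ Z (Finset.univ : Finset ι).toList (by
    intro h0
    have := Finset.toList_eq_nil.1 h0
    exact Finset.univ_nonempty.ne_empty this) fun j _ => h j
  have e1 : (Finset.univ : Finset ι).toList.length = Fintype.card ι := by
    rw [Finset.length_toList, Finset.card_univ]
  have e2 : ∀ F : ι → ℂ → ℂ, (fun s => ((Finset.univ : Finset ι).toList.map fun i => F i s).prod) =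
      fun s => ∏ j, F j s := by
    intro F
    funext s
    exact Finset.prod_map_toList _ _
  rw [e1, e2, e2] at h1
  exact h1

/-- the statement for a family -/
theorem family {Λ Z X : ι → ℂ → ℂ} (hP : ∀ j, PK 1 (Λ j) (Z j)) (hX : ∀ j, Good (X j))
    (hv : ∀ j, ∃ v : ℂ, v ≠ 0 ∧ ∀ z : ℂ, X j z = v * Λ j (1 / 2 + z))
    (hd : ∀ j, Differentiable ℂ (Λ j)) {a : ℝ} {L : ℂ → ℂ}
    (hL : ∀ z : ℂ, L ((a : ℂ) + z) = ∏ j, Λ j (1 / 2 + z)) :
    (∀ c : ℝ, c < 1 → ∃ C : ℝ, 0 < C ∧ ∀ δ T : ℝ, 0 ≤ δ → 2 ≤ T → (OffA a L δ T).Finite ∧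
      ((∑ᶠ s ∈ OffA a L δ T, analyticOrderNatAt L s : ℕ) : ℝ) ≤ C * T ^ (1 - c * δ) * Real.log T) ∧
    ((∀ s : ℂ, L s = 0 → s.re = a) ↔
      ∀ t : ℝ, StrictMonoOn (fun x : ℝ => ‖L (a + x + t * I)‖) (Set.Ici 0)) ∧
    (∀ c : ℝ, c < 1 → ∃ C : ℝ, 0 < C ∧ ∀ r T : ℝ, 0 ≤ r → 2 ≤ T →
      MeasureTheory.volume (BadA a L (r / Real.log T) T) ≤
        ENNReal.ofReal (C * Real.exp (-(c * r)) * T)) ∧
    (∀ G : ℂ → ℂ, (∀ z, G z = L ((a : ℂ) + I * z)) →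
      (∀ (n : ℕ) (T : ℝ), (Pool.Agent.Y771.NF.Cnt.ZerD G n T).Finite) ∧
      ∃ c C : ℝ, 0 < c ∧ 0 < C ∧
        (∀ (n : ℕ) (T : ℝ), (Pool.Agent.Y771.NF.Cnt.num (iteratedDeriv n G)
          (Pool.Agent.Y771.NF.Cnt.ExcD G n T) : ℝ) ≤ C * Real.exp (-(c * n)) *
            Pool.Agent.Y771.NF.Cnt.num (iteratedDeriv n G) (Pool.Agent.Y771.NF.Cnt.ZerD G n T)) ∧
        (∀ (n : ℕ) (T : ℝ), 2 ≤ T →
          (Pool.Agent.Y771.NF.Cnt.num (iteratedDeriv n G) (Pool.Agent.Y771.NF.Cnt.ExcD G n T) : ℝ) ≤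
          C * Real.exp (-(c * n)) * T * Real.log T)) ∧
    (Fintype.card ι ≤ 5 → ∀ G : ℝ → ℂ → ℂ, (∀ (τ : ℝ) (z : ℂ), G τ z = heat τ L ((a : ℂ) + I * z)) →
      (∀ t T : ℝ, 0 ≤ t → (Pool.Agent.Y771.NF.Cnt.ZerH (G t) T).Finite) ∧
      ∃ c C : ℝ, 0 < c ∧ 0 < C ∧ ∀ t T : ℝ, 0 < t → t ≤ 1 / 8 → 2 ≤ T →
        (Pool.Agent.Y771.NF.Cnt.num (G t) (Pool.Agent.Y771.NF.Cnt.ExcH (G t) T) : ℝ) ≤
          C * Real.exp (-(c * t * Real.log T ^ 2)) *
            Pool.Agent.Y771.NF.Cnt.num (G t) (Pool.Agent.Y771.NF.Cnt.ZerH (G t) T) ∧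
        (Pool.Agent.Y771.NF.Cnt.num (G t) (Pool.Agent.Y771.NF.Cnt.ExcH (G t) T) : ℝ) ≤
          C * Real.exp (-(c * t * Real.log T ^ 2)) * T * Real.log T) := by
  classical
  choose v hv0 hXe using hv
  have hV : ∏ j, v j ≠ 0 := Finset.prod_ne_zero_iff.2 fun j _ => hv0 j
  have hXe' : ∀ z : ℂ, ∏ j, X j z = (∏ j, v j) * L ((a : ℂ) + z) := by
    intro z
    rw [hL, ← Finset.prod_mul_distrib]
    exact Finset.prod_congr rfl fun j _ => hXe j z
  have hLe : ∀ s : ℂ, L s = ∏ j, Λ j (1 / 2 + (s - a)) := by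
    intro s
    rw [← hL, add_sub_cancel]
  have hLd : Differentiable ℂ L := by
    have h1 : L = fun s => ∏ j, Λ j (1 / 2 + (s - a)) := funext hLe
    rw [h1]
    refine Differentiable.fun_finsetProd fun j _ => ?_
    exact (hd j).comp (by fun_prop : Differentiable ℂ fun s : ℂ => 1 / 2 + (s - a))
  have hPK := pk_fin hP
  have hcard : 1 ≤ Fintype.card ι := Fintype.card_pos
  obtain ⟨g1, g2⟩ := growth_all hX hV hXe'
  refine ⟨fun c hc => density_all hX hV hLd hXe' hc, g1, g2, fun G hG => ?_, fun h5 G hG => ?_⟩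
  · exact derivs hcard hPK (G := G) fun z => by rw [hG, hL]
  · refine flows hcard h5 hPK (G := G) fun τ z => ?_
    rw [hG]
    unfold Pool.Agent.W169.HF.heat
    congr 1
    refine MeasureTheory.integral_congr_ae (Filter.Eventually.of_forall fun y => ?_)
    simp only
    rw [add_assoc (a : ℂ), hL]
    congr 1
    refine Finset.prod_congr rfl fun j _ => ?_
    congr 1
    ring

end Pool.Agent.X284.HW
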