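import Pool.Agent.X284.HW.L
import Pool.Agent.X284.HG.Fin
import Pool.Agent.X244.AZ.F1

set_option autoImplicit false

/-!
Newforms: from Deligne's bound to the parameters; the data for one form.
-/

namespace Pool.Agent.X284.HW

open UpperHalfPlane hiding I
open MatrixGroups CongruenceSubgroup Filter Topology Complex
open Pool.Agent.Y671.GL
open Pool.Agent.X244.AZ (PK)
open Pool.Agent.X284.HG (Good good_L)
open Pool.Agent.Y693.GL (GY gy_mul gy_one)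
open scoped ComplexConjugate

/-- unitary parameters -/
theorem unit_par {lam e : ℂ} (he : ‖e‖ = 1) (hc : conj lam = conj e * lam) (hb : ‖lam‖ ≤ 2) :
    ∃ u v : ℂ, ‖u‖ = 1 ∧ ‖v‖ = 1 ∧ lam = u + v ∧ e = u * v := by
  obtain ⟨δ, hδ⟩ : ∃ δ : ℂ, δ ^ 2 = e := IsAlgClosed.exists_pow_nat_eq _ (by norm_num)
  have hδn : ‖δ‖ = 1 := by
    have h1 := congrArg norm hδ
    rw [norm_pow, he] at h1
    nlinarith [norm_nonneg δ]
  have hδδ : δ * conj δ = 1 := by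
    rw [Complex.mul_conj, Complex.normSq_eq_norm_sq, hδn]
    simp
  have hxr : conj (lam * conj δ) = lam * conj δ := by
    rw [map_mul, Complex.conj_conj, hc, ← hδ, map_pow]
    linear_combination (lam * conj δ) * hδδ
  obtain ⟨x, hx⟩ := Complex.conj_eq_iff_real.1 hxr
  have hlam : lam = x * δ := by
    rw [← hx]
    linear_combination (-lam) * hδδ
  have hxb : |x| ≤ 2 := by
    have h1 : ‖(x : ℂ)‖ = |x| := by rw [Complex.norm_real, Real.norm_eq_abs]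
    rw [hlam, norm_mul, hδn, mul_one, h1] at hb
    exact hb
  obtain ⟨h1, h2⟩ := abs_le.1 hxb
  obtain ⟨θ, hθ⟩ : ∃ θ : ℝ, θ = Real.arccos (x / 2) := ⟨_, rfl⟩
  have hcos : Real.cos θ = x / 2 := by
    rw [hθ]
    exact Real.cos_arccos (by linarith) (by linarith)
  refine ⟨δ * cexp (θ * I), δ * cexp (-(θ * I)), ?_, ?_, ?_, ?_⟩
  · rw [norm_mul, hδn, one_mul, Complex.norm_exp_ofReal_mul_I]
  · rw [norm_mul, hδn, one_mul]
    have h3 : -(θ * I : ℂ) = ((-θ : ℝ) : ℂ) * I := by push_cast; ring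
    rw [h3, Complex.norm_exp_ofReal_mul_I]
  · have h3 : (x : ℂ) = cexp (θ * I) + cexp (-(θ * I)) := by
      have h4 : (2 : ℂ) * Complex.cos θ = x := by
        rw [← Complex.ofReal_cos, hcos]
        push_cast
        ring
      rw [← h4, Complex.cos]
      rw [neg_mul]
      ring
    rw [hlam, h3]
    ring
  · rw [← hδ]
    have h3 : cexp (θ * I) * cexp (-(θ * I)) = 1 := by
      rw [← Complex.exp_add, add_neg_cancel, Complex.exp_zero]
    linear_combination (-δ ^ 2) * h3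

variable {N : ℕ} {k : ℕ} {ψ : DirichletCharacter ℂ N}
  {f : CuspForm (Gamma1 N : Subgroup (GL (Fin 2) ℝ)) (k : ℤ)} {η : ℂ}

theorem sat_of [NeZero N] (hf : W388.IsNewfC N (k : ℤ) ψ f η)
    (hgood : ∀ p : ℕ, p.Prime → ¬ p ∣ N → ‖(qExpansion 1 f).coeff p‖ ≤ 2 * (p : ℝ) ^ (((k : ℝ) - 1) / 2))
    (hbad : ∀ p : ℕ, p.Prime → p ∣ N → ‖(qExpansion 1 f).coeff p‖ ≤ (p : ℝ) ^ (((k : ℝ) - 1) / 2)) :
    Sat N k ψ f := by
  intro p hp
  have hp0 : (0 : ℝ) < p := by exact_mod_cast hp.pos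
  have hpp : 0 < (p : ℝ) ^ (((k : ℝ) - 1) / 2) := Real.rpow_pos_of_pos hp0 _
  have hn : ‖W388.lamC f p‖ = ‖(qExpansion 1 f).coeff p‖ / (p : ℝ) ^ (((k : ℝ) - 1) / 2) := by
    unfold W388.lamC
    rw [norm_div, Complex.norm_real, Int.cast_natCast, Real.norm_of_nonneg hpp.le]
  by_cases hpN : p ∣ N
  · refine ⟨W388.lamC f p, 0, ?_, by simp, by simp, ?_⟩
    · rw [hn, div_le_one hpp]
      exact hbad p hp hpN
    · rw [mul_zero]
      apply MulChar.map_nonunit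
      rw [ZMod.isUnit_iff_coprime]
      exact fun h => (Nat.Prime.coprime_iff_not_dvd hp).1 h hpN
  · have hco : Nat.Coprime p N := (Nat.Prime.coprime_iff_not_dvd hp).2 hpN
    have hu : IsUnit (p : ZMod N) := (ZMod.isUnit_iff_coprime p N).2 hco
    have he : ‖ψ (p : ZMod N)‖ = 1 := by
      have := ψ.unit_norm_eq_one hu.unit
      simpa using this
    obtain ⟨u, v, h1, h2, h3, h4⟩ := unit_par he (W388.lamC_conj hf p hco) (by
      rw [hn, div_le_iff₀ hpp]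
      exact hgood p hp hpN)
    exact ⟨u, v, h1.le, h2.le, h3, h4⟩

/-- one form -/
theorem one_form [NeZero N] (hk : 1 ≤ k) (hf : W388.IsNewfC N (k : ℤ) ψ f η) (hb : Sat N k ψ f) :
    ∃ Λ Z X : ℂ → ℂ, PK 1 Λ Z ∧ Good X ∧ (∃ v : ℂ, v ≠ 0 ∧ ∀ z : ℂ, X z = v * Λ (1 / 2 + z)) ∧
      IsL (W388.lamC f) Z ∧ Differentiable ℂ Λ ∧
      (∃ w : ℂ, ‖w‖ = 1 ∧ ∀ s : ℂ, Λ (1 - s) = w * conj (Λ (conj s))) ∧
      ∀ s : ℂ, 1 < s.re → Λ s = ((N : ℝ) : ℂ) ^ (s / 2) *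
        Complex.Gammaℂ (s + ((((k : ℝ) - 1) / 2 : ℝ) : ℂ)) * Z s := by
  have hNn : 1 ≤ N := Nat.one_le_iff_ne_zero.2 (NeZero.ne N)
  obtain ⟨c, u, c0, Λ, Z, hc0, hpk, hL, hFE, hD, heq⟩ := ldata hk hf hb
  have hF := frm_al hk hf hb
  have hG := gg_of hF hL hD
  have hst := strip_of hF hL hD
  have hGY := gy_one hG
  refine ⟨Λ, Z, _, ⟨⟨fun w => u * Hg c ((k : ℝ) / 2) w, c0, hc0, ?_, ?_⟩, ?_, ?_⟩,
    good_L hk hF hL hD (Pool.Agent.X244.AZ.lfn_cplx hk hFE hF hL), ⟨c0, hc0, fun z => rfl⟩, hL, hpk.diff, hpk.fe, fun s hs => heq s (Or.inl (by linarith))⟩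
  · rw [Nat.cast_one]
    exact hGY
  · rw [Nat.cast_one]
    exact hG
  · intro s hs
    exact hst s (by
      show c0 * Λ (1 / 2 + s) = 0
      rw [hs, mul_zero])
  · exact ⟨_, _, _, _, _, _, hpk, cb_gl hNn hk⟩

end Pool.Agent.X284.HW
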